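import Pool.Agent.Y671.GL.Spec

set_option autoImplicit false

/-!
# Task JUT of project GD2: Jutila's approximation of the constant function by arcs
-/

namespace Pool.Agent.Y809.GL

open Complex Filter Topology MeasureTheory Set
open scoped ComplexConjugate
open Pool.Agent.Y671.GL

/-! ### The exponentials -/

/-- `e(x)` -/
noncomputable def ee (x : ℝ) : ℂ := cexp (2 * Real.pi * I * x)

theorem ee_add (x y : ℝ) : ee (x + y) = ee x * ee y := by
  unfold ee; rw [← Complex.exp_add]; congr 1; push_cast; ring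

theorem ee_zero : ee 0 = 1 := by simp [ee]

theorem ee_int (n : ℤ) : ee n = 1 := by
  unfold ee
  rw [Complex.exp_eq_one_iff]
  exact ⟨n, by push_cast; ring⟩

theorem norm_ee (x : ℝ) : ‖ee x‖ = 1 := by
  unfold ee
  have : (2 * Real.pi * I * x : ℂ) = ((2 * Real.pi * x : ℝ) : ℂ) * I := by push_cast; ring
  rw [this, Complex.norm_exp_ofReal_mul_I]

theorem conj_ee (x : ℝ) : conj (ee x) = ee (-x) := by
  unfold ee
  rw [← Complex.exp_conj]
  congr 1
  have h1 : (2 * Real.pi * I * x : ℂ) = ((2 * Real.pi * x : ℝ) : ℂ) * I := by push_cast; ring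
  have h2 : (2 * Real.pi * I * (-x : ℝ) : ℂ) = -(((2 * Real.pi * x : ℝ) : ℂ) * I) := by push_cast; ring
  rw [h1, h2, map_mul, Complex.conj_ofReal, Complex.conj_I]
  ring

theorem ee_add_int (x : ℝ) (n : ℤ) : ee (x + n) = ee x := by
  rw [ee_add, ee_int, mul_one]

theorem continuous_ee : Continuous ee := by
  unfold ee; fun_prop

theorem integral_ee (n : ℤ) : ∫ x in (0 : ℝ)..1, ee (n * x) = if n = 0 then 1 else 0 := by
  split_ifs with h
  · subst h; simp [ee_zero]
  · have hn : (2 * Real.pi * I * n : ℂ) ≠ 0 := by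
      have : (n : ℂ) ≠ 0 := by exact_mod_cast h
      simp [Real.pi_ne_zero, this]
    have h1 : ∀ x : ℝ, ee (n * x) = cexp ((2 * Real.pi * I * n) * x) := by
      intro x; unfold ee; congr 1; push_cast; ring
    simp_rw [h1]
    rw [integral_exp_mul_complex hn]
    have h2 : cexp ((2 * Real.pi * I * n) * ((1 : ℝ) : ℂ)) = 1 := by
      have := ee_int n
      unfold ee at this
      rw [← this]; congr 1; push_cast; ring
    rw [h2]; simp

/-- An `L²` bound for trigonometric polynomials. -/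
theorem l2_bound {ι : Type} (s : Finset ι) (n : ι → ℤ) (c : ι → ℂ) (B : ℝ) (hB : 0 ≤ B) (hc : ∀ p ∈ s, ‖c p‖ ≤ B) :
    ∫ x in (0 : ℝ)..1, ‖∑ p ∈ s, c p * ee (n p * x)‖ ^ 2 ≤
      B ^ 2 * (((s ×ˢ s).filter (fun pp => n pp.1 = n pp.2)).card : ℝ) := by
  classical
  have h1 : ∀ x : ℝ, ((‖∑ p ∈ s, c p * ee (n p * x)‖ ^ 2 : ℝ) : ℂ) =
      ∑ pp ∈ s ×ˢ s, (c pp.1 * conj (c pp.2)) * ee (((n pp.1 - n pp.2 : ℤ) : ℝ) * x) := by
    intro x
    rw [Complex.ofReal_pow, ← Complex.mul_conj', map_sum, Finset.sum_mul_sum, ← Finset.sum_product']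
    refine Finset.sum_congr rfl (fun pp _ => ?_)
    rw [map_mul, conj_ee]
    have : ee (((n pp.1 - n pp.2 : ℤ) : ℝ) * x) = ee (n pp.1 * x) * ee (-(n pp.2 * x)) := by
      rw [← ee_add]; congr 1; push_cast; ring
    rw [this]; ring
  have h2 : ((∫ x in (0 : ℝ)..1, ‖∑ p ∈ s, c p * ee (n p * x)‖ ^ 2 : ℝ) : ℂ) =
      ∑ pp ∈ (s ×ˢ s).filter (fun pp => n pp.1 = n pp.2), (c pp.1 * conj (c pp.2)) := by
    rw [← intervalIntegral.integral_ofReal]
    simp_rw [h1]
    rw [intervalIntegral.integral_finsetSum]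
    · rw [Finset.sum_filter]
      refine Finset.sum_congr rfl (fun pp _ => ?_)
      rw [intervalIntegral.integral_const_mul, integral_ee]
      by_cases h : n pp.1 = n pp.2
      · simp [h]
      · have : n pp.1 - n pp.2 ≠ 0 := sub_ne_zero.mpr h
        simp [h, this]
    · intro pp _
      apply Continuous.intervalIntegrable
      exact continuous_const.mul (continuous_ee.comp (by fun_prop))
  have h3 : ‖((∫ x in (0 : ℝ)..1, ‖∑ p ∈ s, c p * ee (n p * x)‖ ^ 2 : ℝ) : ℂ)‖ ≤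
      B ^ 2 * (((s ×ˢ s).filter (fun pp => n pp.1 = n pp.2)).card : ℝ) := by
    rw [h2]
    refine (norm_sum_le _ _).trans ?_
    rw [mul_comm, ← nsmul_eq_mul]
    refine Finset.sum_le_card_nsmul _ _ _ (fun pp hpp => ?_)
    rw [Finset.mem_filter, Finset.mem_product] at hpp
    rw [norm_mul, RCLike.norm_conj, pow_two]
    exact mul_le_mul (hc _ hpp.1.1) (hc _ hpp.1.2) (norm_nonneg _) hB
  rw [Complex.norm_real] at h3
  exact (le_abs_self _).trans h3

/-! ### Cauchy-Schwarz -/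

theorem cs (g h : ℝ → ℂ) (hg : Continuous g) (hh : Continuous h) :
    ‖∫ x in (0 : ℝ)..1, g x * h x‖ ≤
      Real.sqrt (∫ x in (0 : ℝ)..1, ‖g x‖ ^ 2) * Real.sqrt (∫ x in (0 : ℝ)..1, ‖h x‖ ^ 2) := by
  set A := ∫ x in (0 : ℝ)..1, ‖g x‖ ^ 2 with hA
  set B := ∫ x in (0 : ℝ)..1, ‖h x‖ ^ 2 with hB
  set D := ∫ x in (0 : ℝ)..1, ‖g x‖ * ‖h x‖ with hD
  have hgi : IntervalIntegrable (fun x => ‖g x‖ ^ 2) volume 0 1 := (hg.norm.pow 2).intervalIntegrable _ _
  have hhi : IntervalIntegrable (fun x => ‖h x‖ ^ 2) volume 0 1 := (hh.norm.pow 2).intervalIntegrable _ _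
  have hghi : IntervalIntegrable (fun x => ‖g x‖ * ‖h x‖) volume 0 1 := (hg.norm.mul hh.norm).intervalIntegrable _ _
  have h0 : ‖∫ x in (0 : ℝ)..1, g x * h x‖ ≤ D := by
    refine (intervalIntegral.norm_integral_le_integral_norm (by norm_num)).trans ?_
    simp_rw [norm_mul]
    exact le_rfl
  have hA0 : 0 ≤ A := intervalIntegral.integral_nonneg (by norm_num) (fun x _ => by positivity)
  have hB0 : 0 ≤ B := intervalIntegral.integral_nonneg (by norm_num) (fun x _ => by positivity)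
  have hD0 : 0 ≤ D := intervalIntegral.integral_nonneg (by norm_num) (fun x _ => by positivity)
  have key : ∀ t : ℝ, 0 ≤ B * (t * t) + (-(2 * D)) * t + A := by
    intro t
    have h1 : B * (t * t) + (-(2 * D)) * t + A = ∫ x in (0 : ℝ)..1, (‖g x‖ - t * ‖h x‖) ^ 2 := by
      have h2 : ∀ x : ℝ, (‖g x‖ - t * ‖h x‖) ^ 2 = (t * t) * ‖h x‖ ^ 2 + (-(2 * t)) * (‖g x‖ * ‖h x‖) + ‖g x‖ ^ 2 := by
        intro x; ring
      simp_rw [h2]
      rw [intervalIntegral.integral_add ((hhi.const_mul _).add (hghi.const_mul _)) hgi,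
        intervalIntegral.integral_add (hhi.const_mul _) (hghi.const_mul _),
        intervalIntegral.integral_const_mul, intervalIntegral.integral_const_mul]
      ring
    rw [h1]
    exact intervalIntegral.integral_nonneg (by norm_num) (fun x _ => by positivity)
  have h4 := discrim_le_zero key
  unfold discrim at h4
  have h5 : D ^ 2 ≤ A * B := by nlinarith
  refine h0.trans ?_
  rw [← Real.sqrt_mul hA0]
  exact Real.le_sqrt_of_sq_le h5

/-! ### Fejér's kernel -/

theorem fej_eq (H : ℕ) (x : ℝ) : ((fej H x : ℝ) : ℂ) =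
    (1 / (H : ℂ)) * ∑ p ∈ Finset.range H ×ˢ Finset.range H, ee ((((p.1 : ℤ) - (p.2 : ℤ) : ℤ) : ℝ) * x) := by
  unfold fej
  have h1 : ∀ j : ℕ, cexp (2 * Real.pi * I * j * x) = ee (j * x) := by
    intro j; unfold ee; congr 1; push_cast; ring
  simp_rw [h1]
  rw [Complex.ofReal_div, Complex.ofReal_pow, ← Complex.mul_conj', map_sum, Finset.sum_mul_sum, ← Finset.sum_product']
  rw [Complex.ofReal_natCast, div_eq_mul_inv, mul_comm, one_div]
  congr 1
  refine Finset.sum_congr rfl (fun pp _ => ?_)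
  rw [conj_ee, ← ee_add]
  congr 1; push_cast; ring

theorem fej_periodic (H : ℕ) : Function.Periodic (fej H) 1 := by
  intro x
  have h : ((fej H (x + 1) : ℝ) : ℂ) = ((fej H x : ℝ) : ℂ) := by
    rw [fej_eq, fej_eq]
    congr 1
    refine Finset.sum_congr rfl (fun pp _ => ?_)
    rw [mul_add, mul_one, ee_add_int]
  exact_mod_cast h

theorem fej_continuous (H : ℕ) : Continuous (fej H) := by
  unfold fej
  fun_prop

/-! ### The sums over fractions -/

/-- the prime set -/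
def PP (M P : ℕ) : Finset ℕ := (Finset.Ioc P (4 * P)).filter (fun p => p.Prime ∧ ¬ p ∣ M)

theorem QQ_sum {α : Type} [AddCommMonoid α] (M P : ℕ) (hM : 1 ≤ M) (f : ℕ → α) :
    ∑ q ∈ QQ M P, f q = ∑ p ∈ PP M P, f (M * p) := by
  unfold QQ PP
  rw [Finset.sum_image]
  intro a _ b _ hab
  exact Nat.eq_of_mul_eq_mul_left (by omega) hab

theorem QQ_card (M P : ℕ) (hM : 1 ≤ M) : (QQ M P).card = (PP M P).card := by
  unfold QQ PP
  rw [Finset.card_image_of_injective]
  intro a b hab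
  exact Nat.eq_of_mul_eq_mul_left (by omega) hab

/-- the Ramanujan sum -/
noncomputable def ram (q : ℕ) (v : ℤ) : ℂ :=
  ∑ a ∈ (Finset.range q).filter (fun a => a.Coprime q), ee (-(v * (a / q : ℝ)))

theorem ram_zero (q : ℕ) : ram q 0 = (q.totient : ℂ) := by
  unfold ram
  simp only [Int.cast_zero, zero_mul, neg_zero, ee_zero, Finset.sum_const, nsmul_eq_mul, mul_one]
  congr 1
  rw [Nat.totient_eq_card_coprime]
  congr 1
  ext a
  simp [Nat.coprime_comm]

theorem norm_ram_le (q : ℕ) (v : ℤ) : ‖ram q v‖ ≤ q := by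
  unfold ram
  refine (norm_sum_le _ _).trans ?_
  simp_rw [norm_ee]
  rw [Finset.sum_const, nsmul_eq_mul, mul_one]
  have := Finset.card_filter_le (Finset.range q) (fun a => a.Coprime q)
  rw [Finset.card_range] at this
  exact_mod_cast this

/-- a complete sum of roots of unity -/
theorem geom_zero (p : ℕ) (hp : 1 ≤ p) (v : ℤ) (hv : ¬ (p : ℤ) ∣ v) :
    ∑ s ∈ Finset.range p, ee (-(v * (s / p : ℝ))) = 0 := by
  have hp0 : (p : ℝ) ≠ 0 := by positivity
  have h1 : ∀ s : ℕ, ee (-(v * (s / p : ℝ))) = (ee (-(v / p : ℝ))) ^ s := by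
    intro s
    unfold ee
    rw [← Complex.exp_nat_mul]
    congr 1; push_cast; ring
  simp_rw [h1]
  have h2 : ee (-(v / p : ℝ)) ≠ 1 := by
    intro h
    unfold ee at h
    rw [Complex.exp_eq_one_iff] at h
    obtain ⟨n, hn⟩ := h
    have h3 : (2 * Real.pi * I : ℂ) ≠ 0 := by simp [Real.pi_ne_zero]
    have h4 : ((-(v / p : ℝ) : ℝ) : ℂ) = n := by
      have : (2 * Real.pi * I : ℂ) * ((-(v / p : ℝ) : ℝ) : ℂ) = (2 * Real.pi * I : ℂ) * n := by
        rw [hn]; ring
      exact mul_left_cancel₀ h3 this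
    have h5 : (-(v / p : ℝ) : ℝ) = n := by exact_mod_cast h4
    have h6 : (v : ℝ) = -(n * p) := by
      field_simp at h5
      linarith
    have h7 : v = -(n * p) := by exact_mod_cast h6
    exact hv ⟨-n, by rw [h7]; ring⟩
  rw [geom_sum_eq h2, ← h1]
  have h8 : ee (-(v * (p / p : ℝ))) = 1 := by
    rw [div_self hp0, mul_one]
    have := ee_int (-v)
    push_cast at this
    exact this
  rw [h8]; simp

/-- sums over `a < M p` -/
theorem sum_range_mul {α : Type} [AddCommMonoid α] (M p : ℕ) (f : ℕ → α) :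
    ∑ a ∈ Finset.range (M * p), f a = ∑ r ∈ Finset.range M, ∑ s ∈ Finset.range p, f (r + M * s) := by
  induction p with
  | zero => simp
  | succ p ih =>
    rw [Nat.mul_succ, Finset.sum_range_add, ih]
    simp_rw [Finset.sum_range_succ]
    rw [Finset.sum_add_distrib]
    congr 1
    refine Finset.sum_congr rfl (fun r _ => ?_)
    rw [add_comm]

theorem norm_ram_le' (M p : ℕ) (hM : 1 ≤ M) (hp : p.Prime) (v : ℤ) (hv : ¬ (p : ℤ) ∣ v) :
    ‖ram (M * p) v‖ ≤ M := by
  have hp1 : 1 ≤ p := hp.one_lt.le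
  have hM0 : (M : ℝ) ≠ 0 := by positivity
  have hp0 : (p : ℝ) ≠ 0 := by positivity
  set F : ℕ → ℂ := fun a => ee (-(v * (a / (M * p : ℕ) : ℝ))) with hF
  have hcop : ∀ a : ℕ, a.Coprime (M * p) ↔ a.Coprime M ∧ ¬ p ∣ a := by
    intro a
    have h := hp.coprime_iff_not_dvd (n := a)
    rw [Nat.coprime_mul_iff_right, ← h]
    exact and_congr_right (fun _ => Nat.coprime_comm)
  have h1 : ram (M * p) v = ∑ a ∈ Finset.range (M * p), (if a.Coprime M then F a else 0) -
      ∑ a ∈ (Finset.range (M * p)).filter (fun a => p ∣ a), (if a.Coprime M then F a else 0) := by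
    unfold ram
    rw [Finset.sum_filter, Finset.sum_filter, ← Finset.sum_sub_distrib]
    refine Finset.sum_congr rfl (fun a _ => ?_)
    by_cases h2 : a.Coprime M <;> by_cases h3 : p ∣ a <;> simp [hcop, h2, h3, hF]
  have h2 : ∑ a ∈ Finset.range (M * p), (if a.Coprime M then F a else 0) = 0 := by
    rw [sum_range_mul]
    refine Finset.sum_eq_zero (fun r _ => ?_)
    have h3 : ∀ s : ℕ, (if (r + M * s).Coprime M then F (r + M * s) else 0) =
        (if r.Coprime M then ee (-(v * (r / (M * p : ℕ) : ℝ))) else 0) * ee (-(v * (s / p : ℝ))) := by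
      intro s
      have hc : (r + M * s).Coprime M ↔ r.Coprime M := by rw [Nat.coprime_add_mul_left_left]
      by_cases h : r.Coprime M
      · rw [if_pos (hc.mpr h), if_pos h]
        simp only [hF]
        rw [← ee_add]
        congr 1
        push_cast
        field_simp
        ring
      · rw [if_neg (fun h' => h (hc.mp h')), if_neg h, zero_mul]
    simp_rw [h3]
    rw [← Finset.mul_sum, geom_zero p hp1 v hv, mul_zero]
  rw [h1, h2, zero_sub, norm_neg]
  refine (norm_sum_le _ _).trans ?_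
  have h4 : ∀ a ∈ (Finset.range (M * p)).filter (fun a => p ∣ a), ‖(if a.Coprime M then F a else 0)‖ ≤ (1 : ℝ) := by
    intro a _
    split_ifs
    · simp only [hF]; rw [norm_ee]
    · simp
  refine (Finset.sum_le_card_nsmul _ _ _ h4).trans ?_
  rw [nsmul_eq_mul, mul_one]
  have h5 : (Finset.range (M * p)).filter (fun a => p ∣ a) ⊆ (Finset.range M).image (fun b => p * b) := by
    intro a ha
    rw [Finset.mem_filter, Finset.mem_range] at ha
    obtain ⟨b, rfl⟩ := ha.2
    rw [Finset.mem_image]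
    refine ⟨b, ?_, rfl⟩
    rw [Finset.mem_range]
    have := ha.1
    rw [mul_comm M p] at this
    exact Nat.lt_of_mul_lt_mul_left this
  have h6 := Finset.card_le_card h5
  have h7 := h6.trans (Finset.card_image_le)
  rw [Finset.card_range] at h7
  exact_mod_cast h7

/-- the sum over all fractions -/
noncomputable def SS (M P : ℕ) (v : ℤ) : ℂ := ∑ q ∈ QQ M P, ram q v

theorem SS_zero (M P : ℕ) : SS M P 0 = (Lam M P : ℂ) := by
  unfold SS Lam
  push_cast
  exact Finset.sum_congr rfl (fun q _ => ram_zero q)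

theorem PP_card (M P : ℕ) : (PP M P).card ≤ 4 * P := by
  unfold PP
  refine (Finset.card_filter_le _ _).trans ?_
  rw [Nat.card_Ioc]; omega

theorem norm_SS_le (M P : ℕ) (hM : 1 ≤ M) (v : ℤ) (hv0 : v ≠ 0) (hv : v.natAbs < P ^ 2) :
    ‖SS M P v‖ ≤ 8 * M * P := by
  unfold SS
  rw [QQ_sum M P hM]
  rw [← Finset.sum_filter_add_sum_filter_not (PP M P) (fun p => (p : ℤ) ∣ v)]
  have h1 : ‖∑ p ∈ (PP M P).filter (fun p : ℕ => (p : ℤ) ∣ v), ram (M * p) v‖ ≤ 4 * M * P := by
    have hc : ((PP M P).filter (fun p : ℕ => (p : ℤ) ∣ v)).card ≤ 1 := by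
      rw [Finset.card_le_one]
      intro a ha b hb
      unfold PP at ha hb
      simp only [Finset.mem_filter, Finset.mem_Ioc] at ha hb
      by_contra hab
      have hco : Nat.Coprime a b := (Nat.coprime_primes ha.1.2.1 hb.1.2.1).mpr hab
      have h2 : a ∣ v.natAbs := Int.natCast_dvd.mp ha.2
      have h3 : b ∣ v.natAbs := Int.natCast_dvd.mp hb.2
      have h4 : a * b ∣ v.natAbs := hco.mul_dvd_of_dvd_of_dvd h2 h3
      have h5 : a * b ≤ v.natAbs := Nat.le_of_dvd (Int.natAbs_pos.mpr hv0) h4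
      have h6 : P ^ 2 ≤ a * b := by
        rw [pow_two]; exact Nat.mul_le_mul ha.1.1.1.le hb.1.1.1.le
      omega
    refine (norm_sum_le _ _).trans ?_
    have h2 : ∀ p ∈ (PP M P).filter (fun p : ℕ => (p : ℤ) ∣ v), ‖ram (M * p) v‖ ≤ 4 * M * P := by
      intro p hp
      unfold PP at hp
      simp only [Finset.mem_filter, Finset.mem_Ioc] at hp
      refine (norm_ram_le _ _).trans ?_
      have : M * p ≤ M * (4 * P) := Nat.mul_le_mul_left _ hp.1.1.2
      have h3 : ((M * p : ℕ) : ℝ) ≤ ((M * (4 * P) : ℕ) : ℝ) := by exact_mod_cast this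
      refine h3.trans (le_of_eq ?_)
      push_cast; ring
    refine (Finset.sum_le_card_nsmul _ _ _ h2).trans ?_
    rw [nsmul_eq_mul]
    have h3 : (((PP M P).filter (fun p : ℕ => (p : ℤ) ∣ v)).card : ℝ) ≤ 1 := by exact_mod_cast hc
    have h4 : (0 : ℝ) ≤ 4 * M * P := by positivity
    nlinarith
  have h2 : ‖∑ p ∈ (PP M P).filter (fun p : ℕ => ¬ (p : ℤ) ∣ v), ram (M * p) v‖ ≤ 4 * M * P := by
    refine (norm_sum_le _ _).trans ?_
    have h2 : ∀ p ∈ (PP M P).filter (fun p : ℕ => ¬ (p : ℤ) ∣ v), ‖ram (M * p) v‖ ≤ M := by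
      intro p hp
      unfold PP at hp
      simp only [Finset.mem_filter, Finset.mem_Ioc] at hp
      exact norm_ram_le' M p hM hp.1.2.1 v hp.2
    refine (Finset.sum_le_card_nsmul _ _ _ h2).trans ?_
    rw [nsmul_eq_mul]
    have h3 : ((PP M P).filter (fun p : ℕ => ¬ (p : ℤ) ∣ v)).card ≤ 4 * P :=
      (Finset.card_filter_le _ _).trans (PP_card M P)
    have h4 : (((PP M P).filter (fun p : ℕ => ¬ (p : ℤ) ∣ v)).card : ℝ) ≤ 4 * P := by exact_mod_cast h3
    have h5 : (0 : ℝ) ≤ M := by positivity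
    nlinarith
  refine (norm_add_le _ _).trans ?_
  linarith

/-! ### The weights -/

theorem card_mul_le_Lam (M P : ℕ) (hM : 1 ≤ M) : ((QQ M P).card : ℝ) * P ≤ Lam M P := by
  unfold Lam
  rw [← nsmul_eq_mul]
  refine Finset.card_nsmul_le_sum _ _ _ (fun q hq => ?_)
  unfold QQ at hq
  rw [Finset.mem_image] at hq
  obtain ⟨p, hp, rfl⟩ := hq
  simp only [Finset.mem_filter, Finset.mem_Ioc] at hp
  have hco : Nat.Coprime M p := (Nat.coprime_comm.mp ((hp.2.1.coprime_iff_not_dvd).mpr hp.2.2))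
  rw [Nat.totient_mul hco, Nat.totient_prime hp.2.1]
  have h1 : 1 ≤ M.totient := Nat.totient_pos.mpr hM
  have h2 : P ≤ p - 1 := by omega
  have h3 : P ≤ M.totient * (p - 1) := by nlinarith
  exact_mod_cast h3

theorem sum_log_ge (P : ℕ) : Chebyshev.theta ((4 * P : ℕ) : ℝ) - Chebyshev.theta (P : ℝ) =
    ∑ p ∈ (Finset.Ioc P (4 * P)).filter (fun p => p.Prime), Real.log p := by
  unfold Chebyshev.theta
  rw [Nat.floor_natCast, Nat.floor_natCast]
  have h1 : (Finset.Ioc 0 (4 * P)).filter (fun p => p.Prime) =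
      (Finset.Ioc 0 P).filter (fun p => p.Prime) ∪ (Finset.Ioc P (4 * P)).filter (fun p => p.Prime) := by
    rw [← Finset.filter_union]
    congr 1
    ext a
    simp only [Finset.mem_Ioc, Finset.mem_union]
    omega
  have h2 : Disjoint ((Finset.Ioc 0 P).filter (fun p => p.Prime)) ((Finset.Ioc P (4 * P)).filter (fun p => p.Prime)) := by
    rw [Finset.disjoint_left]
    intro a ha hb
    simp only [Finset.mem_filter, Finset.mem_Ioc] at ha hb
    omega
  rw [h1, Finset.sum_union h2]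
  ring

/-- Chebyshev: there are many primes between `P` and `4P`. -/
theorem exists_card_ge : ∃ c P0 : ℝ, 0 < c ∧ 2 ≤ P0 ∧ ∀ M P : ℕ, 1 ≤ M → P0 ≤ P → M ≤ P →
    c * P / Real.log P ≤ ((QQ M P).card : ℝ) := by
  refine ⟨Real.log 2 / 2, 60 ^ 4, by have := Real.log_pos one_lt_two; positivity, by norm_num, ?_⟩
  intro M P hM hP hMP
  have hP0 : (0 : ℝ) < P := by linarith [show (0 : ℝ) < 60 ^ 4 by norm_num]
  have hP1 : 1 ≤ P := by exact_mod_cast hP0
  set s : ℝ := Real.sqrt (Real.sqrt P) with hs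
  have hs0 : 0 ≤ s := Real.sqrt_nonneg _
  have hs2 : s ^ 2 = Real.sqrt P := Real.sq_sqrt (Real.sqrt_nonneg _)
  have hs4 : s ^ 4 = P := by
    have : s ^ 4 = (s ^ 2) ^ 2 := by ring
    rw [this, hs2, Real.sq_sqrt hP0.le]
  have hs60 : 60 ≤ s := by
    by_contra h
    push Not at h
    have : s ^ 4 < 60 ^ 4 := pow_lt_pow_left₀ h hs0 (by norm_num)
    rw [hs4] at this
    linarith
  have hlog : Real.log P ≤ 4 * s := by
    rw [← hs4, Real.log_pow]
    have := Real.log_le_sub_one_of_pos (show 0 < s by linarith)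
    push_cast
    linarith
  have hlog4 : Real.log 4 ≤ 2 := by
    have h : Real.log 4 = 2 * Real.log 2 := by
      rw [show (4 : ℝ) = 2 ^ 2 by norm_num, Real.log_pow]; push_cast; ring
    have := Real.log_two_lt_d9
    linarith
  have hl4P : Real.log (4 * P) ≤ 2 + 4 * s := by
    rw [Real.log_mul (by norm_num) hP0.ne']
    linarith
  have hl4P1 : Real.log (4 * P + 1) ≤ 3 + 4 * s := by
    have h1 : Real.log (4 * P + 1) ≤ Real.log (8 * P) := by
      apply Real.log_le_log (by positivity)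
      have : (1 : ℝ) ≤ P := by exact_mod_cast hP1
      linarith
    have h2 : Real.log (8 * P) = Real.log 2 + Real.log (4 * P) := by
      rw [← Real.log_mul (by norm_num) (by positivity)]
      congr 1; ring
    have := Real.log_two_lt_d9
    linarith
  have h1 := Chebyshev.theta_ge (4 * P)
  have h2 := Chebyshev.theta_le_log4_mul_x (x := P) hP0.le
  have h3 := sum_log_ge P
  have h4 : Real.sqrt ((4 * P : ℕ) : ℝ) = 2 * s ^ 2 := by
    rw [hs2]; push_cast
    rw [show (4 : ℝ) * P = 2 ^ 2 * P by norm_num, Real.sqrt_mul (by norm_num), Real.sqrt_sq (by norm_num)]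
  rw [h4] at h1
  push_cast at h1
  have hl2 := Real.log_two_gt_d9
  have h5 : Real.log 4 = 2 * Real.log 2 := by
    rw [show (4 : ℝ) = 2 ^ 2 by norm_num, Real.log_pow]; push_cast; ring
  rw [h5] at h2
  have h6 : 2 * (2 * s ^ 2) * Real.log (4 * P) ≤ 4 * s ^ 2 * (2 + 4 * s) := by
    have : 0 ≤ s ^ 2 := by positivity
    nlinarith
  have h7 : (3 + 4 * s) + 4 * s ^ 2 * (2 + 4 * s) ≤ s ^ 4 * Real.log 2 := by
    have a1 : 60 * s ^ 3 ≤ s ^ 4 := by nlinarith [pow_nonneg hs0 3]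
    have a2 : 60 * s ^ 2 ≤ s ^ 3 := by nlinarith [pow_nonneg hs0 2]
    have a3 : 60 * s ≤ s ^ 2 := by nlinarith
    have a4 : s ^ 4 * 0.69 ≤ s ^ 4 * Real.log 2 := by
      apply mul_le_mul_of_nonneg_left (by linarith) (by positivity)
    nlinarith
  rw [hs4] at h7
  have h8 : (P : ℝ) * Real.log 2 ≤ ∑ p ∈ (Finset.Ioc P (4 * P)).filter (fun p => p.Prime), Real.log p := by
    rw [← h3]; push_cast; linarith
  -- all those primes do not divide M
  have h9 : (Finset.Ioc P (4 * P)).filter (fun p => p.Prime) = PP M P := by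
    unfold PP
    ext p
    simp only [Finset.mem_filter, Finset.mem_Ioc]
    constructor
    · rintro ⟨⟨a1, a2⟩, a3⟩
      refine ⟨⟨a1, a2⟩, a3, fun h => ?_⟩
      have := Nat.le_of_dvd (by omega) h
      omega
    · rintro ⟨⟨a1, a2⟩, a3, _⟩
      exact ⟨⟨a1, a2⟩, a3⟩
  rw [h9] at h8
  rw [QQ_card M P hM]
  have hlP : 0 < Real.log P := by
    apply Real.log_pos
    linarith [show (1 : ℝ) < 60 ^ 4 by norm_num]
  have h10 : ∑ p ∈ PP M P, Real.log p ≤ (PP M P).card * (2 * Real.log P) := by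
    rw [← nsmul_eq_mul]
    refine Finset.sum_le_card_nsmul _ _ _ (fun p hp => ?_)
    unfold PP at hp
    simp only [Finset.mem_filter, Finset.mem_Ioc] at hp
    have hp0 : (0 : ℝ) < p := by exact_mod_cast hp.2.1.pos
    have b1 : (p : ℝ) ≤ P ^ 2 := by
      have b2 : (p : ℝ) ≤ 4 * P := by exact_mod_cast hp.1.2
      nlinarith [show (4 : ℝ) ≤ 60 ^ 4 by norm_num]
    have b3 := Real.log_le_log hp0 b1
    rw [Real.log_pow] at b3
    push_cast at b3
    exact b3
  rw [div_le_iff₀ hlP]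
  nlinarith

/-! ### The kernel -/

/-- the kernel `Λ J` -/
noncomputable def KK (M P H : ℕ) (x : ℝ) : ℝ :=
  ∑ q ∈ QQ M P, ∑ a ∈ (Finset.range q).filter (fun a => a.Coprime q), fej H (x - a / q)

theorem KK_continuous (M P H : ℕ) : Continuous (KK M P H) := by
  unfold KK
  refine continuous_finsetSum _ (fun q _ => continuous_finsetSum _ (fun a _ => ?_))
  exact (fej_continuous H).comp (by fun_prop)

theorem KK_eq (M P H : ℕ) (x : ℝ) : ((KK M P H x : ℝ) : ℂ) =
    (1 / (H : ℂ)) * ∑ p ∈ Finset.range H ×ˢ Finset.range H,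
      SS M P ((p.1 : ℤ) - (p.2 : ℤ)) * ee ((((p.1 : ℤ) - (p.2 : ℤ) : ℤ) : ℝ) * x) := by
  unfold KK
  rw [Complex.ofReal_sum]
  simp_rw [Complex.ofReal_sum, fej_eq]
  simp_rw [← Finset.mul_sum]
  congr 1
  have h1 : ∀ q : ℕ, ∑ a ∈ (Finset.range q).filter (fun a => a.Coprime q),
      ∑ p ∈ Finset.range H ×ˢ Finset.range H, ee ((((p.1 : ℤ) - (p.2 : ℤ) : ℤ) : ℝ) * (x - a / q)) =
      ∑ p ∈ Finset.range H ×ˢ Finset.range H,
        ram q ((p.1 : ℤ) - (p.2 : ℤ)) * ee ((((p.1 : ℤ) - (p.2 : ℤ) : ℤ) : ℝ) * x) := by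
    intro q
    rw [Finset.sum_comm]
    refine Finset.sum_congr rfl (fun p _ => ?_)
    unfold ram
    rw [Finset.sum_mul]
    refine Finset.sum_congr rfl (fun a _ => ?_)
    rw [← ee_add]
    congr 1
    ring
  simp_rw [h1]
  rw [Finset.sum_comm]
  refine Finset.sum_congr rfl (fun p _ => ?_)
  unfold SS
  rw [Finset.sum_mul]

theorem card_quad (H : ℕ) : ((((Finset.range H ×ˢ Finset.range H) ×ˢ (Finset.range H ×ˢ Finset.range H)).filter
    (fun pp => ((pp.1.1 : ℤ) - (pp.1.2 : ℤ)) = ((pp.2.1 : ℤ) - (pp.2.2 : ℤ)))).card) ≤ H ^ 3 := by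
  have h1 : H ^ 3 = ((Finset.range H ×ˢ Finset.range H) ×ˢ Finset.range H).card := by
    rw [Finset.card_product, Finset.card_product, Finset.card_range]; ring
  rw [h1]
  refine Finset.card_le_card_of_injOn (fun pp => (pp.1, pp.2.1)) ?_ ?_
  · intro pp hpp
    simp only [Finset.coe_filter, Finset.mem_product, Finset.mem_range, Set.mem_ofPred_eq] at hpp
    simp only [Finset.coe_product, Finset.coe_range, Set.mem_prod, Set.mem_Iio]
    exact ⟨hpp.1.1, hpp.1.2.1⟩
  · rintro ⟨⟨a1, a2⟩, ⟨a3, a4⟩⟩ ha ⟨⟨b1, b2⟩, ⟨b3, b4⟩⟩ hb hab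
    simp only [Finset.coe_filter, Finset.mem_product, Finset.mem_range, Set.mem_ofPred_eq] at ha hb
    simp only [Prod.mk.injEq] at hab ⊢
    omega

theorem one_sub_KK (M P H : ℕ) (hH : 1 ≤ H) (hL : 0 < Lam M P) (x : ℝ) :
    (1 : ℂ) - (((1 / Lam M P : ℝ)) : ℂ) * ((KK M P H x : ℝ) : ℂ) = -(1 / (H * Lam M P) : ℝ) *
      ∑ p ∈ Finset.range H ×ˢ Finset.range H,
        (if ((p.1 : ℤ) - (p.2 : ℤ)) = 0 then 0 else SS M P ((p.1 : ℤ) - (p.2 : ℤ))) *
          ee ((((p.1 : ℤ) - (p.2 : ℤ) : ℤ) : ℝ) * x) := by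
  have hH0 : (H : ℂ) ≠ 0 := by
    have : (H : ℕ) ≠ 0 := by omega
    exact_mod_cast this
  have hL0 : (Lam M P : ℂ) ≠ 0 := by exact_mod_cast hL.ne'
  have h1 : ∑ p ∈ Finset.range H ×ˢ Finset.range H,
        (if ((p.1 : ℤ) - (p.2 : ℤ)) = 0 then 0 else SS M P ((p.1 : ℤ) - (p.2 : ℤ))) *
          ee ((((p.1 : ℤ) - (p.2 : ℤ) : ℤ) : ℝ) * x) =
      ∑ p ∈ Finset.range H ×ˢ Finset.range H,
        SS M P ((p.1 : ℤ) - (p.2 : ℤ)) * ee ((((p.1 : ℤ) - (p.2 : ℤ) : ℤ) : ℝ) * x) -
      ∑ p ∈ Finset.range H ×ˢ Finset.range H, (if p.1 = p.2 then (Lam M P : ℂ) else 0) := by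
    rw [← Finset.sum_sub_distrib]
    refine Finset.sum_congr rfl (fun p _ => ?_)
    by_cases h : p.1 = p.2
    · have h2 : ((p.1 : ℤ) - (p.2 : ℤ)) = 0 := by rw [h]; ring
      rw [if_pos h2, if_pos h, h2, SS_zero]
      simp [ee_zero]
    · have h2 : ¬ ((p.1 : ℤ) - (p.2 : ℤ)) = 0 := by omega
      rw [if_neg h2, if_neg h, sub_zero]
  have h2 : ∑ p ∈ Finset.range H ×ˢ Finset.range H, (if p.1 = p.2 then (Lam M P : ℂ) else 0) = H * Lam M P := by
    rw [Finset.sum_product]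
    have : ∀ i ∈ Finset.range H, ∑ j ∈ Finset.range H, (if i = j then (Lam M P : ℂ) else 0) = Lam M P := by
      intro i hi
      rw [Finset.sum_ite_eq, if_pos hi]
    rw [Finset.sum_congr rfl this, Finset.sum_const, Finset.card_range, nsmul_eq_mul]
  rw [h1, h2, KK_eq]
  generalize ∑ p ∈ Finset.range H ×ˢ Finset.range H,
        SS M P ((p.1 : ℤ) - (p.2 : ℤ)) * ee ((((p.1 : ℤ) - (p.2 : ℤ) : ℤ) : ℝ) * x) = T
  push_cast
  field_simp
  ring

theorem l2_one_sub_KK (M P H : ℕ) (hM : 1 ≤ M) (hH : 1 ≤ H) (hHP : H ≤ P ^ 2) (hL : 0 < Lam M P) :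
    ∫ x in (0 : ℝ)..1, ‖(1 : ℂ) - (((1 / Lam M P : ℝ)) : ℂ) * ((KK M P H x : ℝ) : ℂ)‖ ^ 2 ≤
      (8 * M * P / Lam M P) ^ 2 * H := by
  have hH0 : (0 : ℝ) < H := by exact_mod_cast hH
  simp_rw [one_sub_KK M P H hH hL, norm_mul, norm_neg, mul_pow]
  rw [intervalIntegral.integral_const_mul]
  have hb := l2_bound (Finset.range H ×ˢ Finset.range H) (fun p => ((p.1 : ℤ) - (p.2 : ℤ)))
    (fun p => (if ((p.1 : ℤ) - (p.2 : ℤ)) = 0 then 0 else SS M P ((p.1 : ℤ) - (p.2 : ℤ)))) (8 * M * P)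
    (by positivity) (by
      intro p hp
      simp only [Finset.mem_product, Finset.mem_range] at hp
      split_ifs with h
      · rw [norm_zero]; positivity
      · exact norm_SS_le M P hM _ h (by omega))
  have hc : (((((Finset.range H ×ˢ Finset.range H) ×ˢ (Finset.range H ×ˢ Finset.range H)).filter
    (fun pp => ((pp.1.1 : ℤ) - (pp.1.2 : ℤ)) = ((pp.2.1 : ℤ) - (pp.2.2 : ℤ)))).card : ℕ) : ℝ) ≤ (H : ℝ) ^ 3 := by
    exact_mod_cast card_quad H
  have h3 : ‖(((1 / (H * Lam M P) : ℝ)) : ℂ)‖ ^ 2 = (1 / (H * Lam M P)) ^ 2 := by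
    rw [Complex.norm_real, Real.norm_eq_abs, sq_abs]
  rw [h3]
  have h4 := hb.trans (mul_le_mul_of_nonneg_left hc (by positivity))
  refine (mul_le_mul_of_nonneg_left h4 (by positivity)).trans (le_of_eq ?_)
  field_simp

theorem shift_integral (g : ℝ → ℂ) (H : ℕ) (hp : Function.Periodic g 1) (t : ℝ) :
    ∫ β in (-(1 / 2) : ℝ)..(1 / 2), g (t + β) * (fej H β : ℂ) =
      ∫ x in (0 : ℝ)..1, g x * (fej H (x - t) : ℂ) := by
  set φ : ℝ → ℂ := fun x => g x * (fej H (x - t) : ℂ) with hφ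
  have hφp : Function.Periodic φ 1 := by
    intro x
    simp only [hφ]
    rw [hp x, show x + 1 - t = (x - t) + 1 by ring, fej_periodic H (x - t)]
  have h1 : ∫ β in (-(1 / 2) : ℝ)..(1 / 2), g (t + β) * (fej H β : ℂ) = ∫ β in (-(1 / 2) : ℝ)..(1 / 2), φ (t + β) := by
    refine intervalIntegral.integral_congr (fun β _ => ?_)
    simp only [hφ]
    rw [show t + β - t = β by ring]
  rw [h1, intervalIntegral.integral_comp_add_left (fun x => φ x) t]
  have h2 := hφp.intervalIntegral_add_eq (t + -(1 / 2)) 0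
  rw [show t + 1 / 2 = t + -(1 / 2) + 1 by ring, h2]
  simp

theorem jut : S_JUT := by
  obtain ⟨c, P0, hc, hP0, hcard⟩ := exists_card_ge
  refine ⟨8 / c, P0, by positivity, hP0, ?_⟩
  intro M P H g hM hP hMP hH hHP hg hgp
  have hP1 : (0 : ℝ) < P := by linarith
  have hlogP : 0 < Real.log P := Real.log_pos (by linarith)
  have hM0 : (0 : ℝ) < M := by exact_mod_cast hM
  have hcd := hcard M P hM hP hMP
  have hcd0 : 0 < c * P / Real.log P := by positivity
  have hL := card_mul_le_Lam M P hM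
  have hL0 : 0 < Lam M P := lt_of_lt_of_le (mul_pos (lt_of_lt_of_le hcd0 hcd) hP1) hL
  refine ⟨hL, hL0, ?_⟩
  -- the main identity
  have hsum : ∑ q ∈ QQ M P, ∑ a ∈ (Finset.range q).filter (fun a => a.Coprime q),
        ∫ β in (-(1 / 2) : ℝ)..(1 / 2), g (a / q + β) * (fej H β : ℂ) =
      ∫ x in (0 : ℝ)..1, g x * ((KK M P H x : ℝ) : ℂ) := by
    simp_rw [shift_integral g H hgp]
    have h1 : ∀ x : ℝ, g x * ((KK M P H x : ℝ) : ℂ) =
        ∑ q ∈ QQ M P, ∑ a ∈ (Finset.range q).filter (fun a => a.Coprime q), g x * (fej H (x - a / q) : ℂ) := by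
      intro x
      unfold KK
      push_cast
      simp_rw [Finset.mul_sum]
    simp_rw [h1]
    rw [intervalIntegral.integral_finsetSum]
    · refine Finset.sum_congr rfl (fun q _ => ?_)
      rw [intervalIntegral.integral_finsetSum]
      intro a _
      apply Continuous.intervalIntegrable
      exact hg.mul (Complex.continuous_ofReal.comp ((fej_continuous H).comp (by fun_prop)))
    · intro q _
      apply Continuous.intervalIntegrable
      refine continuous_finsetSum _ (fun a _ => ?_)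
      exact hg.mul (Complex.continuous_ofReal.comp ((fej_continuous H).comp (by fun_prop)))
  have hK : Continuous fun x : ℝ => (1 : ℂ) - (((1 / Lam M P : ℝ)) : ℂ) * ((KK M P H x : ℝ) : ℂ) :=
    continuous_const.sub (continuous_const.mul (Complex.continuous_ofReal.comp (KK_continuous M P H)))
  have hdiff : (∫ x in (0 : ℝ)..1, g x) - (1 / (Lam M P : ℝ) : ℝ) *
      ∑ q ∈ QQ M P, ∑ a ∈ (Finset.range q).filter (fun a => a.Coprime q),
        ∫ β in (-(1 / 2) : ℝ)..(1 / 2), g (a / q + β) * (fej H β : ℂ) =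
      ∫ x in (0 : ℝ)..1, g x * ((1 : ℂ) - (((1 / Lam M P : ℝ)) : ℂ) * ((KK M P H x : ℝ) : ℂ)) := by
    rw [hsum, ← intervalIntegral.integral_const_mul, ← intervalIntegral.integral_sub]
    · refine intervalIntegral.integral_congr (fun x _ => ?_)
      ring
    · exact hg.intervalIntegrable _ _
    · apply Continuous.intervalIntegrable
      exact continuous_const.mul (hg.mul (Complex.continuous_ofReal.comp (KK_continuous M P H)))
  rw [hdiff]
  refine (cs g _ hg hK).trans ?_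
  rw [mul_comm]
  refine mul_le_mul_of_nonneg_right ?_ (Real.sqrt_nonneg _)
  have h1 := Real.sqrt_le_sqrt (l2_one_sub_KK M P H hM hH hHP hL0)
  refine h1.trans ?_
  rw [Real.sqrt_mul (by positivity), Real.sqrt_sq (by positivity)]
  have h2 : c * P / Real.log P * P ≤ Lam M P := (mul_le_mul_of_nonneg_right hcd hP1.le).trans hL
  have h3 : 8 * M * P / Lam M P ≤ 8 / c * M * Real.log P / P := by
    rw [div_le_iff₀ hL0]
    calc 8 * (M : ℝ) * P = 8 / c * M * Real.log P / P * (c * P / Real.log P * P) := by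
          field_simp
      _ ≤ 8 / c * M * Real.log P / P * Lam M P := mul_le_mul_of_nonneg_left h2 (by positivity)
  calc 8 * M * P / Lam M P * Real.sqrt H ≤ 8 / c * M * Real.log P / P * Real.sqrt H :=
        mul_le_mul_of_nonneg_right h3 (Real.sqrt_nonneg _)
    _ = 8 / c * M * Real.sqrt H * Real.log P / P := by ring

end Pool.Agent.Y809.GL
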