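import Pool.Agent.Y809.GL.JUT

set_option autoImplicit false

/-!
# Task SC of project GD2: shifted convolution sums from JUT and ARC
-/

namespace Pool.Agent.Y809.GL

open Complex Filter Topology MeasureTheory Set
open scoped ComplexConjugate
open Pool.Agent.Y671.GL

/-! ### Elementary bounds for the coefficients -/

theorem norm_lam_le {k N : ℕ} {ps lam : ℕ → ℂ} (hf : Frm k N ps lam) :
    ∃ C : ℝ, 0 ≤ C ∧ ∀ n : ℕ, ‖lam n‖ ≤ C * n := by
  obtain ⟨th, C, h0, h1, h⟩ := hf.ram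
  refine ⟨|C|, abs_nonneg C, fun n => ?_⟩
  rcases Nat.eq_zero_or_pos n with hn | hn
  · subst hn; rw [hf.zero]; simp
  have hn1 : (1 : ℝ) ≤ n := by exact_mod_cast hn
  have h2 : (n : ℝ) ^ th ≤ n := by
    calc (n : ℝ) ^ th ≤ (n : ℝ) ^ (1 : ℝ) := Real.rpow_le_rpow_of_exponent_le hn1 (by linarith)
      _ = n := Real.rpow_one _
  have h3 : 0 ≤ (n : ℝ) ^ th := by positivity
  calc ‖lam n‖ ≤ C * (n : ℝ) ^ th := h n hn
    _ ≤ |C| * (n : ℝ) ^ th := mul_le_mul_of_nonneg_right (le_abs_self C) h3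
    _ ≤ |C| * n := mul_le_mul_of_nonneg_left h2 (abs_nonneg C)

theorem norm_aa_le {k N : ℕ} {ps lam : ℕ → ℂ} (hf : Frm k N ps lam) :
    ∃ C : ℝ, 0 ≤ C ∧ ∀ n : ℕ, ‖aa k lam n‖ ≤ C * (n : ℝ) ^ (k + 1) := by
  obtain ⟨C, hC0, hC⟩ := norm_lam_le hf
  refine ⟨C, hC0, fun n => ?_⟩
  unfold aa
  rw [norm_mul, Complex.norm_real, Real.norm_of_nonneg (by positivity)]
  rcases Nat.eq_zero_or_pos n with h0 | h0
  · subst h0; rw [hf.zero]; simp
  have h1 : (1 : ℝ) ≤ n := by exact_mod_cast h0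
  have h2 : (n : ℝ) ^ (((k : ℝ) - 1) / 2) ≤ (n : ℝ) ^ (k : ℝ) := by
    apply Real.rpow_le_rpow_of_exponent_le h1
    have : (0 : ℝ) ≤ k := by positivity
    linarith
  rw [Real.rpow_natCast] at h2
  calc ‖lam n‖ * (n : ℝ) ^ (((k : ℝ) - 1) / 2) ≤ (C * n) * (n : ℝ) ^ k :=
        mul_le_mul (hC n) h2 (by positivity) (by positivity)
    _ = C * (n : ℝ) ^ (k + 1) := by ring

theorem summable_aa {k N : ℕ} {ps lam : ℕ → ℂ} (hf : Frm k N ps lam) (v : ℝ) (hv : 0 < v) :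
    Summable (fun n : ℕ => ‖aa k lam n‖ * Real.exp (-(n * v))) := by
  obtain ⟨C, hC0, hC⟩ := norm_aa_le hf
  have h1 : Summable (fun n : ℕ => C * ((n : ℝ) ^ (k + 1) * Real.exp (-v * n))) :=
    (Real.summable_pow_mul_exp_neg_nat_mul (k + 1) hv).mul_left C
  refine Summable.of_nonneg_of_le (fun n => by positivity) (fun n => ?_) h1
  rw [show -(n * v) = -v * n by ring, ← mul_assoc]
  exact mul_le_mul_of_nonneg_right (hC n) (Real.exp_nonneg _)

theorem continuous_Ph {k N : ℕ} {ps lam : ℕ → ℂ} (hf : Frm k N ps lam) (h : ℕ) (hh : 1 ≤ h) (v : ℝ) (hv : 0 < v) :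
    Continuous (fun x : ℝ => Ph k lam (h * (v + 2 * Real.pi * I * x))) := by
  unfold Ph
  have hhv : 0 < h * v := by positivity
  refine continuous_tsum (fun n => ?_) (summable_aa hf (h * v) hhv) (fun n x => ?_)
  · fun_prop
  · rw [norm_mul, Complex.norm_exp]
    refine le_of_eq ?_
    congr 2
    simp

theorem periodic_Ph {k : ℕ} {lam : ℕ → ℂ} (h : ℕ) (v x : ℝ) :
    Ph k lam (h * (v + 2 * Real.pi * I * ((x + 1 : ℝ) : ℂ))) = Ph k lam (h * (v + 2 * Real.pi * I * x)) := by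
  unfold Ph
  congr 1
  ext n
  congr 1
  have : -((n : ℂ) * (h * (v + 2 * Real.pi * I * ((x + 1 : ℝ) : ℂ)))) =
      -(n * (h * (v + 2 * Real.pi * I * x))) + ((-(n * h : ℤ) : ℤ) : ℂ) * (2 * Real.pi * I) := by
    push_cast; ring
  rw [this, Complex.exp_add, Complex.exp_int_mul_two_pi_mul_I, mul_one]

theorem gg_continuous {k N : ℕ} {ps lam : ℕ → ℂ} (hf : Frm k N ps lam) (h l : ℕ) (hh : 1 ≤ h) (hl : 1 ≤ l)
    (r : ℤ) (v : ℝ) (hv : 0 < v) : Continuous (gg k lam h l r v) := by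
  unfold gg
  refine ((continuous_Ph hf h hh v hv).mul (Complex.continuous_conj.comp (continuous_Ph hf l hl v hv))).mul ?_
  fun_prop

theorem gg_periodic {k : ℕ} {lam : ℕ → ℂ} (h l : ℕ) (r : ℤ) (v : ℝ) : Function.Periodic (gg k lam h l r v) 1 := by
  intro x
  unfold gg
  rw [periodic_Ph, periodic_Ph]
  congr 1
  have : (2 * Real.pi * I * r * ((x + 1 : ℝ) : ℂ) : ℂ) = 2 * Real.pi * I * r * x + (r : ℂ) * (2 * Real.pi * I) := by
    push_cast; ring
  rw [this, Complex.exp_add, Complex.exp_int_mul_two_pi_mul_I, mul_one]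

theorem gg_bound {k N : ℕ} {ps lam : ℕ → ℂ} (hf : Frm k N ps lam) : ∃ G : ℝ, 0 < G ∧ ∀ (h l : ℕ) (r : ℤ) (v x : ℝ),
    1 ≤ h → 1 ≤ l → 0 < v → ‖gg k lam h l r v x‖ ≤ G * v ^ (-(k : ℝ)) := by
  obtain ⟨C, hC⟩ := hf.bd
  refine ⟨(|C| + 1) ^ 2, by positivity, ?_⟩
  intro h l r v x hh hl hv
  have key : ∀ m : ℕ, 1 ≤ m → ‖Ph k lam (m * (v + 2 * Real.pi * I * x))‖ ≤ (|C| + 1) * v ^ (-((k : ℝ) / 2)) := by
    intro m hm
    have hm1 : (1 : ℝ) ≤ m := by exact_mod_cast hm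
    have hre : ((m : ℂ) * (v + 2 * Real.pi * I * x)).re = m * v := by simp
    have h1 := hC (m * (v + 2 * Real.pi * I * x)) (by rw [hre]; positivity)
    rw [hre] at h1
    refine h1.trans ?_
    have h2 : ((m : ℝ) * v) ^ (-((k : ℝ) / 2)) ≤ v ^ (-((k : ℝ) / 2)) := by
      apply Real.rpow_le_rpow_of_nonpos hv
      · nlinarith
      · have : (0 : ℝ) ≤ k := by positivity
        linarith
    have h3 : C ≤ |C| + 1 := by linarith [le_abs_self C]
    calc C * ((m : ℝ) * v) ^ (-((k : ℝ) / 2)) ≤ (|C| + 1) * ((m : ℝ) * v) ^ (-((k : ℝ) / 2)) :=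
          mul_le_mul_of_nonneg_right h3 (by positivity)
      _ ≤ _ := mul_le_mul_of_nonneg_left h2 (by positivity)
  unfold gg
  rw [norm_mul, norm_mul, RCLike.norm_conj]
  have h4 : ‖cexp (2 * Real.pi * I * r * x)‖ = 1 := by
    have : (2 * Real.pi * I * r * x : ℂ) = ((2 * Real.pi * r * x : ℝ) : ℂ) * I := by push_cast; ring
    rw [this, Complex.norm_exp_ofReal_mul_I]
  rw [h4, mul_one]
  refine (mul_le_mul (key h hh) (key l hl) (norm_nonneg _) (by positivity)).trans (le_of_eq ?_)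
  have h5 : v ^ (-(k : ℝ)) = v ^ (-((k : ℝ) / 2)) * v ^ (-((k : ℝ) / 2)) := by
    rw [← Real.rpow_add hv]; congr 1; ring
  rw [h5]; ring

/-! ### Fejér's kernel -/

theorem fej_nonneg (H : ℕ) (x : ℝ) : 0 ≤ fej H x := by
  unfold fej; positivity

theorem fej_integral (H : ℕ) (hH : 1 ≤ H) : ∫ β in (-(1 / 2) : ℝ)..(1 / 2), fej H β = 1 := by
  have h1 := (fej_periodic H).intervalIntegral_add_eq (-(1 / 2)) 0
  rw [show (-(1 / 2) : ℝ) + 1 = 1 / 2 by norm_num, zero_add] at h1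
  rw [h1]
  have h2 : ((∫ x in (0 : ℝ)..1, fej H x : ℝ) : ℂ) = 1 := by
    rw [← intervalIntegral.integral_ofReal]
    simp_rw [fej_eq]
    rw [intervalIntegral.integral_const_mul, intervalIntegral.integral_finsetSum]
    · simp_rw [integral_ee]
      have h3 : ∑ p ∈ Finset.range H ×ˢ Finset.range H, (if ((p.1 : ℤ) - (p.2 : ℤ)) = 0 then (1 : ℂ) else 0) = H := by
        rw [Finset.sum_product]
        have : ∀ i ∈ Finset.range H, ∑ j ∈ Finset.range H, (if ((i : ℤ) - (j : ℤ)) = 0 then (1 : ℂ) else 0) = 1 := by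
          intro i hi
          have : ∀ j : ℕ, (if ((i : ℤ) - (j : ℤ)) = 0 then (1 : ℂ) else 0) = if i = j then 1 else 0 := by
            intro j
            congr 1
            rw [eq_iff_iff]
            omega
          simp_rw [this]
          rw [Finset.sum_ite_eq, if_pos hi]
        rw [Finset.sum_congr rfl this, Finset.sum_const, Finset.card_range, nsmul_eq_mul, mul_one]
      rw [h3]
      have : (H : ℂ) ≠ 0 := by
        have : (H : ℕ) ≠ 0 := by omega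
        exact_mod_cast this
      field_simp
    · intro p _
      apply Continuous.intervalIntegrable
      exact continuous_ee.comp (by fun_prop)
  exact_mod_cast h2

theorem fej_le (H : ℕ) (hH : 1 ≤ H) (β : ℝ) (hβ : |β| ≤ 1 / 2) (hβ0 : β ≠ 0) : fej H β ≤ 1 / (4 * H * β ^ 2) := by
  have hH0 : (0 : ℝ) < H := by exact_mod_cast hH
  have hb : 0 < |β| := abs_pos.mpr hβ0
  have h1 : ∀ j : ℕ, cexp (2 * Real.pi * I * j * β) = (ee β) ^ j := by
    intro j; unfold ee; rw [← Complex.exp_nat_mul]; congr 1; ring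
  have h2 : 4 * |β| ≤ ‖ee β - 1‖ := by
    have h3 : ee β = cexp (I * ((2 * Real.pi * β : ℝ) : ℂ)) := by unfold ee; congr 1; push_cast; ring
    rw [h3, Complex.norm_exp_I_mul_ofReal_sub_one]
    rw [show 2 * Real.pi * β / 2 = Real.pi * β by ring, norm_mul, Real.norm_eq_abs, Real.norm_eq_abs, abs_two]
    have h4 : |Real.sin (Real.pi * β)| = Real.sin (Real.pi * |β|) := by
      rcases le_or_gt 0 β with h | h
      · rw [abs_of_nonneg h, abs_of_nonneg]
        apply Real.sin_nonneg_of_nonneg_of_le_pi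
        · positivity
        · rw [abs_of_nonneg h] at hβ; nlinarith [Real.pi_pos]
      · rw [abs_of_neg h, show Real.pi * -β = -(Real.pi * β) by ring, Real.sin_neg, abs_of_nonpos]
        have : 0 ≤ Real.sin (Real.pi * (-β)) := by
          apply Real.sin_nonneg_of_nonneg_of_le_pi
          · have := Real.pi_pos; nlinarith
          · rw [abs_of_neg h] at hβ; nlinarith [Real.pi_pos]
        rw [show Real.pi * -β = -(Real.pi * β) by ring, Real.sin_neg] at this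
        linarith
    rw [h4]
    have h5 := Real.mul_le_sin (x := Real.pi * |β|) (by positivity) (by nlinarith [Real.pi_pos])
    have h6 : 2 / Real.pi * (Real.pi * |β|) = 2 * |β| := by
      field_simp
    rw [h6] at h5
    linarith
  have h3 : ee β ≠ 1 := by
    intro h
    rw [h] at h2
    simp only [sub_self, norm_zero] at h2
    linarith
  unfold fej
  simp_rw [h1]
  rw [geom_sum_eq h3, norm_div]
  have h4 : ‖ee β ^ H - 1‖ ≤ 2 := by
    refine (norm_sub_le _ _).trans ?_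
    rw [norm_pow, norm_ee, one_pow, norm_one]; norm_num
  have h5 : ‖ee β ^ H - 1‖ / ‖ee β - 1‖ ≤ 1 / (2 * |β|) := by
    rw [div_le_div_iff₀ (by linarith) (by positivity)]
    nlinarith [norm_nonneg (ee β ^ H - 1)]
  have h6 : (‖ee β ^ H - 1‖ / ‖ee β - 1‖) ^ 2 ≤ (1 / (2 * |β|)) ^ 2 :=
    pow_le_pow_left₀ (by positivity) h5 2
  have h7 : (1 / (2 * |β|)) ^ 2 = 1 / (4 * β ^ 2) := by
    rw [div_pow, mul_pow, sq_abs]; norm_num
  rw [h7] at h6
  rw [div_le_iff₀ hH0]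
  refine h6.trans (le_of_eq ?_)
  have : β ^ 2 ≠ 0 := by positivity
  field_simp

theorem integral_inv (η : ℝ) (hη : 0 < η) : ∫ β in (-(1 / 2) : ℝ)..(1 / 2), 1 / (β ^ 2 + η ^ 2) ≤ Real.pi / η := by
  have h1 : ∀ β : ℝ, 1 / (β ^ 2 + η ^ 2) = (1 / η ^ 2) * (1 / (1 + (β / η) ^ 2)) := by
    intro β
    have : β ^ 2 + η ^ 2 ≠ 0 := by positivity
    field_simp
    ring
  simp_rw [h1]
  rw [intervalIntegral.integral_const_mul]
  have h2 := intervalIntegral.integral_comp_div (a := (-(1/2) : ℝ)) (b := 1/2) (fun u : ℝ => 1 / (1 + u ^ 2)) hη.ne'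
  rw [h2, smul_eq_mul, integral_one_div_one_add_sq]
  have h3 := Real.arctan_lt_pi_div_two (1 / 2 / η)
  have h4 := Real.neg_pi_div_two_lt_arctan (-(1 / 2) / η)
  have h5 : Real.arctan (1 / 2 / η) - Real.arctan (-(1 / 2) / η) ≤ Real.pi := by linarith
  calc 1 / η ^ 2 * (η * (Real.arctan (1 / 2 / η) - Real.arctan (-(1 / 2) / η))) ≤ 1 / η ^ 2 * (η * Real.pi) := by
        gcongr
    _ = Real.pi / η := by field_simp

/-! ### One modulus -/

theorem one_modulus {k N : ℕ} {ps lam : ℕ → ℂ} (hf : Frm k N ps lam) (G : ℝ) (hG : 0 < G)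
    (hgb : ∀ (h l : ℕ) (r : ℤ) (v x : ℝ), 1 ≤ h → 1 ≤ l → 0 < v → ‖gg k lam h l r v x‖ ≤ G * v ^ (-(k : ℝ)))
    (h l : ℕ) (r : ℤ) (v : ℝ) (hh : 1 ≤ h) (hl : 1 ≤ l) (hv : 0 < v) (q H : ℕ) (hH : 1 ≤ H) (η B1 : ℝ) (hη : 0 < η)
    (hB1 : 0 ≤ B1)
    (hB : ∀ β : ℝ, |β| ≤ 1 / 2 → |β| ≤ η →
      ‖∑ a ∈ (Finset.range q).filter (fun a => a.Coprime q), gg k lam h l r v (a / q + β)‖ ≤ B1) :
    ‖∑ a ∈ (Finset.range q).filter (fun a => a.Coprime q),
      ∫ β in (-(1 / 2) : ℝ)..(1 / 2), gg k lam h l r v (a / q + β) * (fej H β : ℂ)‖ ≤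
      B1 + (q.totient : ℝ) * (G * v ^ (-(k : ℝ)) * (Real.pi / (2 * H * η))) := by
  have hH0 : (0 : ℝ) < H := by exact_mod_cast hH
  have hgc := gg_continuous hf h l hh hl r v hv
  have hint : ∀ a ∈ (Finset.range q).filter (fun a => a.Coprime q), IntervalIntegrable
      (fun β : ℝ => gg k lam h l r v (a / q + β) * (fej H β : ℂ)) volume (-(1 / 2)) (1 / 2) := by
    intro a _
    apply Continuous.intervalIntegrable
    exact (hgc.comp (by fun_prop)).mul (Complex.continuous_ofReal.comp (fej_continuous H))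
  rw [← intervalIntegral.integral_finsetSum hint]
  have h1 : ∀ β : ℝ, ∑ a ∈ (Finset.range q).filter (fun a => a.Coprime q),
      gg k lam h l r v (a / q + β) * (fej H β : ℂ) =
      (∑ a ∈ (Finset.range q).filter (fun a => a.Coprime q), gg k lam h l r v (a / q + β)) * (fej H β : ℂ) := by
    intro β; rw [Finset.sum_mul]
  simp_rw [h1]
  refine (intervalIntegral.norm_integral_le_integral_norm (by norm_num)).trans ?_
  set E : ℝ := (q.totient : ℝ) * (G * v ^ (-(k : ℝ))) with hE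
  have hE0 : 0 ≤ E := by positivity
  have hcontS : Continuous (fun β : ℝ =>
      ‖(∑ a ∈ (Finset.range q).filter (fun a => a.Coprime q), gg k lam h l r v (a / q + β)) * (fej H β : ℂ)‖) := by
    refine Continuous.norm (Continuous.mul ?_ (Complex.continuous_ofReal.comp (fej_continuous H)))
    exact continuous_finsetSum _ (fun a _ => hgc.comp (by fun_prop))
  have hcontR : Continuous (fun β : ℝ => B1 * fej H β + E * (1 / (2 * H)) * (1 / (β ^ 2 + η ^ 2))) := by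
    refine (continuous_const.mul (fej_continuous H)).add (continuous_const.mul ?_)
    refine continuous_const.div (by fun_prop) (fun β => ?_)
    positivity
  have h2 : ∫ β in (-(1 / 2) : ℝ)..(1 / 2), ‖(∑ a ∈ (Finset.range q).filter (fun a => a.Coprime q),
      gg k lam h l r v (a / q + β)) * (fej H β : ℂ)‖ ≤
      ∫ β in (-(1 / 2) : ℝ)..(1 / 2), (B1 * fej H β + E * (1 / (2 * H)) * (1 / (β ^ 2 + η ^ 2))) := by
    refine intervalIntegral.integral_mono_on (by norm_num) (hcontS.intervalIntegrable _ _)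
      (hcontR.intervalIntegrable _ _) ?_
    intro β hβ
    have hβ' : |β| ≤ 1 / 2 := abs_le.mpr ⟨by linarith [hβ.1], hβ.2⟩
    rw [norm_mul, Complex.norm_real, Real.norm_of_nonneg (fej_nonneg H β)]
    have hf0 := fej_nonneg H β
    have ht0 : 0 ≤ E * (1 / (2 * H)) * (1 / (β ^ 2 + η ^ 2)) := by positivity
    rcases le_or_gt |β| η with hc | hc
    · have := mul_le_mul_of_nonneg_right (hB β hβ' hc) hf0
      linarith
    · have h3 : ‖∑ a ∈ (Finset.range q).filter (fun a => a.Coprime q), gg k lam h l r v (a / q + β)‖ ≤ E := by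
        refine (norm_sum_le _ _).trans ?_
        refine (Finset.sum_le_card_nsmul _ _ (G * v ^ (-(k : ℝ))) (fun a _ => hgb h l r v _ hh hl hv)).trans ?_
        rw [nsmul_eq_mul, hE]
        have h4 : ((Finset.range q).filter (fun a => a.Coprime q)).card = q.totient := by
          rw [Nat.totient_eq_card_coprime]
          congr 1
          ext a
          simp [Nat.coprime_comm]
        rw [h4]
      have hβ0 : β ≠ 0 := by
        intro h; rw [h, abs_zero] at hc; linarith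
      have h5 := fej_le H hH β hβ' hβ0
      have h6 : η ^ 2 ≤ β ^ 2 := by
        rw [← sq_abs β]; exact pow_le_pow_left₀ hη.le hc.le 2
      have hβ2 : 0 < β ^ 2 := by positivity
      have h7 : 1 / (4 * H * β ^ 2) ≤ (1 / (2 * H)) * (1 / (β ^ 2 + η ^ 2)) := by
        rw [div_mul_div_comm, one_mul]
        apply one_div_le_one_div_of_le (by positivity)
        nlinarith
      have h8 := mul_le_mul h3 (h5.trans h7) hf0 hE0
      have h9 : 0 ≤ B1 * fej H β := by positivity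
      linarith [h8, show E * (1 / (2 * H) * (1 / (β ^ 2 + η ^ 2))) = E * (1 / (2 * H)) * (1 / (β ^ 2 + η ^ 2)) by ring]
  refine h2.trans ?_
  rw [intervalIntegral.integral_add, intervalIntegral.integral_const_mul, intervalIntegral.integral_const_mul,
    fej_integral H hH]
  · have h3 := mul_le_mul_of_nonneg_left (integral_inv η hη) (show 0 ≤ E * (1 / (2 * H)) by positivity)
    have h4 : E * (1 / (2 * H)) * (Real.pi / η) = (q.totient : ℝ) * (G * v ^ (-(k : ℝ)) * (Real.pi / (2 * H * η))) := by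
      rw [hE]
      field_simp
    linarith
  · exact (continuous_const.mul (fej_continuous H)).intervalIntegrable _ _
  · apply Continuous.intervalIntegrable
    refine continuous_const.mul (continuous_const.div (by fun_prop) (fun β => ?_))
    positivity

/-! ### The parameters -/

theorem sc (h1 : S_JUT) (h2 : S_ARC) : S_SC := by
  intro k N ps lam hf
  obtain ⟨C1, P0, hC1, hP0, hJ⟩ := h1
  obtain ⟨C2, A, hC2, hA, hR⟩ := h2 k N ps lam hf
  obtain ⟨G, hG, hgb⟩ := gg_bound hf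
  have hN : (1 : ℝ) ≤ N := by exact_mod_cast hf.N_pos
  refine ⟨1 / 640, G * (N + P0) + 320 * C1 * N * G + 4096 * C2 + 2 * G, A, by norm_num, by positivity, hA, ?_⟩
  intro h l r v hh hl hr hv hv1
  have hh1 : (1 : ℝ) ≤ h := by exact_mod_cast hh
  have hl1 : (1 : ℝ) ≤ l := by exact_mod_cast hl
  have hr1 : (1 : ℝ) ≤ |(r : ℝ)| := by
    have : 1 ≤ |r| := Int.one_le_abs hr
    exact_mod_cast this
  set X : ℝ := h * l * |(r : ℝ)| with hX
  have hhl1 : (1 : ℝ) ≤ h * l := by nlinarith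
  have hX1 : 1 ≤ X := by rw [hX]; nlinarith
  have hXhl : (h : ℝ) * l ≤ X := by rw [hX]; nlinarith
  have hXA : X ≤ X ^ A := by
    calc X = X ^ (1 : ℝ) := (Real.rpow_one X).symm
      _ ≤ X ^ A := Real.rpow_le_rpow_of_exponent_le hX1 hA
  have hXA1 : 1 ≤ X ^ A := hX1.trans hXA
  have hXcast : ((h : ℝ) * (l : ℝ) * ((|r| : ℤ) : ℝ)) = X := by rw [hX, Int.cast_abs]
  rw [hXcast]
  have hvk0 : 0 < v ^ (-(k : ℝ)) := by positivity
  have hgc := gg_continuous hf h l hh hl r v hv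
  set g := gg k lam h l r v with hg
  have hgn : ∀ x, ‖g x‖ ≤ G * v ^ (-(k : ℝ)) := fun x => hgb h l r v x hh hl hv
  have hck : v ^ ((1 / 640 : ℝ) - k) = v ^ (1 / 640 : ℝ) * v ^ (-(k : ℝ)) := by
    rw [← Real.rpow_add hv]; congr 1
  set P : ℕ := ⌈v ^ (-(1 / 2) : ℝ)⌉₊ with hPdef
  have hvm : 1 ≤ v ^ (-(1 / 2) : ℝ) := Real.one_le_rpow_of_pos_of_le_one_of_nonpos hv hv1 (by norm_num)
  have hPl : v ^ (-(1 / 2) : ℝ) ≤ P := Nat.le_ceil _
  have hPu : (P : ℝ) ≤ 2 * v ^ (-(1 / 2) : ℝ) := by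
    have := Nat.ceil_lt_add_one (show 0 ≤ v ^ (-(1 / 2) : ℝ) by positivity)
    rw [← hPdef] at this
    linarith
  have hP1 : (1 : ℝ) ≤ P := hvm.trans hPl
  have hPpos : (0 : ℝ) < P := by linarith
  -- the powers of P
  have hPpow : ∀ e : ℝ, 0 ≤ e → (P : ℝ) ^ (-e) ≤ v ^ (e / 2) := by
    intro e he
    have h3 : (P : ℝ) ^ (-e) ≤ (v ^ (-(1 / 2) : ℝ)) ^ (-e) :=
      Real.rpow_le_rpow_of_nonpos (by positivity) hPl (by linarith)
    rw [← Real.rpow_mul hv.le] at h3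
    rwa [show -(1 / 2) * -e = e / 2 by ring] at h3
  have hvmono : ∀ e : ℝ, 1 / 640 ≤ e → v ^ e ≤ v ^ (1 / 640 : ℝ) := fun e he =>
    Real.rpow_le_rpow_of_exponent_ge hv hv1 he
  by_cases hc : P0 ≤ P ∧ N * h * l ≤ P
  swap
  · -- the trivial bound
    have h3 : ‖∫ x in (0 : ℝ)..1, g x‖ ≤ G * v ^ (-(k : ℝ)) := by
      have := intervalIntegral.norm_integral_le_of_norm_le_const (a := (0 : ℝ)) (b := 1) (f := g)
        (C := G * v ^ (-(k : ℝ))) (fun x _ => hgn x)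
      simpa using this
    have h4 : (P : ℝ) ≤ N * h * l + P0 := by
      rw [not_and_or] at hc
      rcases hc with hc | hc
      · push Not at hc
        have : (0 : ℝ) ≤ N * h * l := by positivity
        linarith
      · push Not at hc
        have : (P : ℝ) ≤ N * h * l := by exact_mod_cast hc.le
        linarith
    have h5 : (N : ℝ) * h * l + P0 ≤ (N + P0) * X ^ A := by
      have a1 : (N : ℝ) * h * l ≤ N * X := by rw [mul_assoc]; gcongr
      have a2 : P0 ≤ P0 * X ^ A := by nlinarith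
      have a3 : (N : ℝ) * X ≤ N * X ^ A := by gcongr
      nlinarith
    have h6 : v ^ (-(1 / 640) : ℝ) ≤ v ^ (-(1 / 2) : ℝ) :=
      Real.rpow_le_rpow_of_exponent_ge hv hv1 (by norm_num)
    have h7 : v ^ (-(1 / 640) : ℝ) ≤ (N + P0) * X ^ A := h6.trans (hPl.trans (h4.trans h5))
    have h8 : v ^ (-(k : ℝ)) = v ^ (-(1 / 640) : ℝ) * v ^ ((1 / 640 : ℝ) - k) := by
      rw [← Real.rpow_add hv]; congr 1; ring
    refine h3.trans ?_
    rw [h8]
    have h9 : 0 < v ^ ((1 / 640 : ℝ) - k) := by positivity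
    calc G * (v ^ (-(1 / 640) : ℝ) * v ^ ((1 / 640 : ℝ) - k)) ≤
          G * (((N + P0) * X ^ A) * v ^ ((1 / 640 : ℝ) - k)) := by gcongr
      _ = (G * (N + P0)) * X ^ A * v ^ ((1 / 640 : ℝ) - k) := by ring
      _ ≤ (G * (N + P0) + 320 * C1 * N * G + 4096 * C2 + 2 * G) * X ^ A * v ^ ((1 / 640 : ℝ) - k) := by
          have : G * (N + P0) ≤ G * (N + P0) + 320 * C1 * N * G + 4096 * C2 + 2 * G := by
            have : 0 ≤ 320 * C1 * N * G + 4096 * C2 + 2 * G := by positivity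
            linarith
          gcongr
  · obtain ⟨hc1, hc2⟩ := hc
    set M : ℕ := N * h * l with hM
    have hM1 : 1 ≤ M := by
      rw [hM]
      exact Nat.one_le_iff_ne_zero.mpr (by
        have := hf.N_pos
        have h3 : N * h ≠ 0 := Nat.mul_ne_zero (by omega) (by omega)
        exact Nat.mul_ne_zero h3 (by omega))
    set H : ℕ := ⌈(P : ℝ) ^ (79 / 40 : ℝ)⌉₊ with hHdef
    have hHl : (P : ℝ) ^ (79 / 40 : ℝ) ≤ H := Nat.le_ceil _
    have hPe1 : 1 ≤ (P : ℝ) ^ (79 / 40 : ℝ) := Real.one_le_rpow hP1 (by norm_num)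
    have hHu : (H : ℝ) ≤ 2 * (P : ℝ) ^ (79 / 40 : ℝ) := by
      have := Nat.ceil_lt_add_one (show 0 ≤ (P : ℝ) ^ (79 / 40 : ℝ) by positivity)
      rw [← hHdef] at this
      linarith
    have hH1 : (1 : ℝ) ≤ H := hPe1.trans hHl
    have hH1' : 1 ≤ H := by exact_mod_cast hH1
    have hHP : H ≤ P ^ 2 := by
      rw [hHdef, Nat.ceil_le]
      push_cast
      rw [← Real.rpow_natCast]
      exact Real.rpow_le_rpow_of_exponent_le hP1 (by norm_num)
    obtain ⟨hJ1, hJ2, hJ3⟩ := hJ M P H g hM1 hc1 hc2 hH1' hHP hgc (gg_periodic h l r v)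
    -- the error term
    have hE : C1 * M * Real.sqrt H * Real.log P / P * Real.sqrt (∫ x in (0 : ℝ)..1, ‖g x‖ ^ 2) ≤
        320 * C1 * N * G * X ^ A * v ^ ((1 / 640 : ℝ) - k) := by
      have e1 : Real.sqrt (∫ x in (0 : ℝ)..1, ‖g x‖ ^ 2) ≤ G * v ^ (-(k : ℝ)) := by
        rw [Real.sqrt_le_left (by positivity)]
        have e2 : ∫ x in (0 : ℝ)..1, ‖g x‖ ^ 2 ≤ ∫ x in (0 : ℝ)..1, (G * v ^ (-(k : ℝ))) ^ 2 := by
          refine intervalIntegral.integral_mono_on (by norm_num) ((hgc.norm.pow 2).intervalIntegrable _ _)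
            (intervalIntegrable_const) ?_
          intro x _
          exact pow_le_pow_left₀ (norm_nonneg _) (hgn x) 2
        refine e2.trans (le_of_eq ?_)
        simp
      have e3 : Real.sqrt H ≤ 2 * (P : ℝ) ^ (79 / 80 : ℝ) := by
        rw [Real.sqrt_le_left (by positivity)]
        have e4 : (2 * (P : ℝ) ^ (79 / 80 : ℝ)) ^ 2 = 4 * (P : ℝ) ^ (79 / 40 : ℝ) := by
          rw [mul_pow, ← Real.rpow_natCast ((P : ℝ) ^ (79 / 80 : ℝ)), ← Real.rpow_mul hPpos.le]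
          norm_num
        rw [e4]; linarith
      have e5 : Real.log P ≤ 160 * (P : ℝ) ^ (1 / 160 : ℝ) := by
        have := Real.log_le_rpow_div hPpos.le (show (0 : ℝ) < 1 / 160 by norm_num)
        refine this.trans (le_of_eq ?_)
        ring
      have e6 : Real.sqrt H * Real.log P / P ≤ 320 * v ^ (1 / 640 : ℝ) := by
        have e7 : Real.sqrt H * Real.log P ≤ (2 * (P : ℝ) ^ (79 / 80 : ℝ)) * (160 * (P : ℝ) ^ (1 / 160 : ℝ)) :=
          mul_le_mul e3 e5 (Real.log_nonneg hP1) (by positivity)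
        have e8 : (2 * (P : ℝ) ^ (79 / 80 : ℝ)) * (160 * (P : ℝ) ^ (1 / 160 : ℝ)) / P =
            320 * (P : ℝ) ^ (-(1 / 160) : ℝ) := by
          have : (P : ℝ) ^ (79 / 80 : ℝ) * (P : ℝ) ^ (1 / 160 : ℝ) / P = (P : ℝ) ^ (-(1 / 160) : ℝ) := by
            rw [← Real.rpow_add hPpos, div_eq_mul_inv, ← Real.rpow_neg_one (P : ℝ), ← Real.rpow_add hPpos]
            norm_num
          rw [← this]; ring
        have e9 : Real.sqrt H * Real.log P / P ≤ 320 * (P : ℝ) ^ (-(1 / 160) : ℝ) := by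
          rw [← e8]; gcongr
        have e10 := hPpow (1 / 160) (by norm_num)
        have e11 := hvmono (1 / 160 / 2) (by norm_num)
        linarith
      have e12 : (M : ℝ) ≤ N * X ^ A := by
        rw [hM]; push_cast
        calc (N : ℝ) * h * l = N * (h * l) := by ring
          _ ≤ N * X ^ A := by
            have := hXhl.trans hXA
            gcongr
      calc C1 * M * Real.sqrt H * Real.log P / P * Real.sqrt (∫ x in (0 : ℝ)..1, ‖g x‖ ^ 2)
          = C1 * M * (Real.sqrt H * Real.log P / P) * Real.sqrt (∫ x in (0 : ℝ)..1, ‖g x‖ ^ 2) := by ring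
        _ ≤ C1 * (N * X ^ A) * (320 * v ^ (1 / 640 : ℝ)) * (G * v ^ (-(k : ℝ))) := by
            have e13 : 0 ≤ Real.sqrt H * Real.log P / P := by
              have := Real.log_nonneg hP1
              positivity
            gcongr
        _ = 320 * C1 * N * G * X ^ A * v ^ ((1 / 640 : ℝ) - k) := by rw [hck]; ring
    -- the main term
    set η : ℝ := v ^ (39 / 40 : ℝ) with hη
    have hη0 : 0 < η := by positivity
    have hvη : v ≤ η := by
      calc v = v ^ (1 : ℝ) := (Real.rpow_one v).symm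
        _ ≤ η := Real.rpow_le_rpow_of_exponent_ge hv hv1 (by norm_num)
    set B1 : ℝ := C2 * X ^ A * (16 * v ^ (19 / 40 : ℝ)) ^ (5 / 2 : ℝ) * v ^ (-((k : ℝ) + 5 / 4)) *
      (4 * P : ℝ) ^ (5 / 8 : ℝ) with hB1
    have hB10 : 0 ≤ B1 := by positivity
    have hPη : 4 * (P : ℝ) * (2 * η) ≤ 16 * v ^ (19 / 40 : ℝ) := by
      have m1 : v ^ (-(1 / 2) : ℝ) * η = v ^ (19 / 40 : ℝ) := by
        rw [hη, ← Real.rpow_add hv]; norm_num
      calc 4 * (P : ℝ) * (2 * η) ≤ 4 * (2 * v ^ (-(1 / 2) : ℝ)) * (2 * η) := by gcongr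
        _ = 16 * (v ^ (-(1 / 2) : ℝ) * η) := by ring
        _ = 16 * v ^ (19 / 40 : ℝ) := by rw [m1]
    have hQ : ∀ q ∈ QQ M P, ‖∑ a ∈ (Finset.range q).filter (fun a => a.Coprime q),
        ∫ β in (-(1 / 2) : ℝ)..(1 / 2), g (a / q + β) * (fej H β : ℂ)‖ ≤
        B1 + (q.totient : ℝ) * (G * v ^ (-(k : ℝ)) * (Real.pi / (2 * H * η))) := by
      intro q hq
      unfold QQ at hq
      rw [Finset.mem_image] at hq
      obtain ⟨p, hp, rfl⟩ := hq
      simp only [Finset.mem_filter, Finset.mem_Ioc] at hp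
      refine one_modulus hf G hG hgb h l r v hh hl hv (M * p) H hH1' η B1 hη0 hB10 ?_
      intro β hβ1 hβ2
      have hp1 : 1 ≤ p := hp.2.1.one_lt.le
      have hp0 : (0 : ℝ) < p := by exact_mod_cast hp1
      have hp4 : (p : ℝ) ≤ 4 * P := by exact_mod_cast hp.1.2
      refine (hR h l p r v β hh hl hp1 hr hv hv1 hβ1).trans ?_
      rw [hXcast]
      have m2 : (p : ℝ) * (v + |β|) ≤ 16 * v ^ (19 / 40 : ℝ) := by
        refine le_trans ?_ hPη
        have : v + |β| ≤ 2 * η := by linarith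
        have h0 : 0 ≤ v + |β| := by positivity
        exact mul_le_mul hp4 this h0 (by positivity)
      rw [hB1]
      have m3 : ((p : ℝ) * (v + |β|)) ^ (5 / 2 : ℝ) ≤ (16 * v ^ (19 / 40 : ℝ)) ^ (5 / 2 : ℝ) :=
        Real.rpow_le_rpow (by positivity) m2 (by norm_num)
      have m4 : (p : ℝ) ^ (5 / 8 : ℝ) ≤ (4 * P : ℝ) ^ (5 / 8 : ℝ) :=
        Real.rpow_le_rpow (by positivity) hp4 (by norm_num)
      gcongr
    have hmain : ‖((1 / (Lam M P : ℝ) : ℝ) : ℂ) *
      ∑ q ∈ QQ M P, ∑ a ∈ (Finset.range q).filter (fun a => a.Coprime q),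
        ∫ β in (-(1 / 2) : ℝ)..(1 / 2), g (a / q + β) * (fej H β : ℂ)‖ ≤
        B1 / P + G * v ^ (-(k : ℝ)) * (Real.pi / (2 * H * η)) := by
      rw [norm_mul, Complex.norm_real, Real.norm_of_nonneg (by positivity)]
      have m1 : ‖∑ q ∈ QQ M P, ∑ a ∈ (Finset.range q).filter (fun a => a.Coprime q),
        ∫ β in (-(1 / 2) : ℝ)..(1 / 2), g (a / q + β) * (fej H β : ℂ)‖ ≤
          (QQ M P).card * B1 + Lam M P * (G * v ^ (-(k : ℝ)) * (Real.pi / (2 * H * η))) := by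
        refine (norm_sum_le _ _).trans ((Finset.sum_le_sum hQ).trans (le_of_eq ?_))
        rw [Finset.sum_add_distrib, Finset.sum_const, nsmul_eq_mul, ← Finset.sum_mul]
        rfl
      have m2 : ((QQ M P).card : ℝ) * B1 ≤ Lam M P * (B1 / P) := by
        calc ((QQ M P).card : ℝ) * B1 = ((QQ M P).card * P) * (B1 / P) := by field_simp
          _ ≤ Lam M P * (B1 / P) := by gcongr
      calc 1 / Lam M P * ‖∑ q ∈ QQ M P, ∑ a ∈ (Finset.range q).filter (fun a => a.Coprime q),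
            ∫ β in (-(1 / 2) : ℝ)..(1 / 2), g (a / q + β) * (fej H β : ℂ)‖
          ≤ 1 / Lam M P * (Lam M P * (B1 / P) + Lam M P * (G * v ^ (-(k : ℝ)) * (Real.pi / (2 * H * η)))) := by
            gcongr; linarith
        _ = B1 / P + G * v ^ (-(k : ℝ)) * (Real.pi / (2 * H * η)) := by field_simp
    have hB1' : B1 / P ≤ 4096 * C2 * X ^ A * v ^ ((1 / 640 : ℝ) - k) := by
      have m1 : (16 * v ^ (19 / 40 : ℝ)) ^ (5 / 2 : ℝ) = 1024 * v ^ (19 / 16 : ℝ) := by
        rw [Real.mul_rpow (by norm_num) (by positivity), ← Real.rpow_mul hv.le]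
        have : (16 : ℝ) ^ (5 / 2 : ℝ) = 1024 := by
          rw [show (16 : ℝ) = 4 ^ (2 : ℝ) by norm_num, ← Real.rpow_mul (by norm_num)]
          norm_num
        rw [this]; norm_num
      have m2 : (4 * P : ℝ) ^ (5 / 8 : ℝ) / P ≤ 4 * v ^ (3 / 16 : ℝ) := by
        rw [Real.mul_rpow (by norm_num) hPpos.le]
        have n1 : (4 : ℝ) ^ (5 / 8 : ℝ) ≤ 4 := by
          calc (4 : ℝ) ^ (5 / 8 : ℝ) ≤ 4 ^ (1 : ℝ) := Real.rpow_le_rpow_of_exponent_le (by norm_num) (by norm_num)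
            _ = 4 := Real.rpow_one 4
        have n2 : (P : ℝ) ^ (5 / 8 : ℝ) / P = (P : ℝ) ^ (-(3 / 8) : ℝ) := by
          rw [div_eq_mul_inv, ← Real.rpow_neg_one (P : ℝ), ← Real.rpow_add hPpos]; norm_num
        have n3 := hPpow (3 / 8) (by norm_num)
        rw [show (3 / 8 : ℝ) / 2 = 3 / 16 by norm_num] at n3
        calc (4 : ℝ) ^ (5 / 8 : ℝ) * (P : ℝ) ^ (5 / 8 : ℝ) / P = (4 : ℝ) ^ (5 / 8 : ℝ) * ((P : ℝ) ^ (5 / 8 : ℝ) / P) := by
              ring
          _ ≤ 4 * v ^ (3 / 16 : ℝ) := by rw [n2]; gcongr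
      have m3 : v ^ (19 / 16 : ℝ) * v ^ (-((k : ℝ) + 5 / 4)) * v ^ (3 / 16 : ℝ) = v ^ (1 / 8 : ℝ) * v ^ (-(k : ℝ)) := by
        rw [← Real.rpow_add hv, ← Real.rpow_add hv, ← Real.rpow_add hv]; congr 1; ring
      have m4 := hvmono (1 / 8) (by norm_num)
      calc B1 / P = C2 * X ^ A * (1024 * v ^ (19 / 16 : ℝ)) * v ^ (-((k : ℝ) + 5 / 4)) *
            ((4 * P : ℝ) ^ (5 / 8 : ℝ) / P) := by rw [hB1, m1]; ring
        _ ≤ C2 * X ^ A * (1024 * v ^ (19 / 16 : ℝ)) * v ^ (-((k : ℝ) + 5 / 4)) * (4 * v ^ (3 / 16 : ℝ)) := by gcongr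
        _ = 4096 * C2 * X ^ A * (v ^ (19 / 16 : ℝ) * v ^ (-((k : ℝ) + 5 / 4)) * v ^ (3 / 16 : ℝ)) := by ring
        _ = 4096 * C2 * X ^ A * (v ^ (1 / 8 : ℝ) * v ^ (-(k : ℝ))) := by rw [m3]
        _ ≤ 4096 * C2 * X ^ A * (v ^ (1 / 640 : ℝ) * v ^ (-(k : ℝ))) := by gcongr
        _ = 4096 * C2 * X ^ A * v ^ ((1 / 640 : ℝ) - k) := by rw [hck]
    have hT : G * v ^ (-(k : ℝ)) * (Real.pi / (2 * H * η)) ≤ 2 * G * X ^ A * v ^ ((1 / 640 : ℝ) - k) := by
      have m1 : 1 / (H : ℝ) ≤ v ^ (79 / 80 : ℝ) := by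
        calc 1 / (H : ℝ) ≤ 1 / (P : ℝ) ^ (79 / 40 : ℝ) := one_div_le_one_div_of_le (by positivity) hHl
          _ = (P : ℝ) ^ (-(79 / 40) : ℝ) := by rw [Real.rpow_neg hPpos.le, one_div]
          _ ≤ v ^ (79 / 40 / 2 : ℝ) := hPpow _ (by norm_num)
          _ = v ^ (79 / 80 : ℝ) := by norm_num
      have m2 : 1 / η = v ^ (-(39 / 40) : ℝ) := by rw [hη, Real.rpow_neg hv.le, one_div]
      have m3 : v ^ (79 / 80 : ℝ) * v ^ (-(39 / 40) : ℝ) = v ^ (1 / 80 : ℝ) := by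
        rw [← Real.rpow_add hv]; norm_num
      have m4 := hvmono (1 / 80) (by norm_num)
      have m5 : Real.pi / (2 * H * η) = (Real.pi / 2) * ((1 / (H : ℝ)) * (1 / η)) := by
        have : (H : ℝ) ≠ 0 := by positivity
        field_simp
      have m6 : (1 / (H : ℝ)) * (1 / η) ≤ v ^ (1 / 640 : ℝ) := by
        rw [m2]
        calc 1 / (H : ℝ) * v ^ (-(39 / 40) : ℝ) ≤ v ^ (79 / 80 : ℝ) * v ^ (-(39 / 40) : ℝ) := by gcongr
          _ = v ^ (1 / 80 : ℝ) := m3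
          _ ≤ _ := m4
      have m7 : Real.pi / 2 ≤ 2 := by linarith [Real.pi_le_four]
      rw [m5, hck]
      calc G * v ^ (-(k : ℝ)) * (Real.pi / 2 * (1 / (H : ℝ) * (1 / η))) ≤
            G * v ^ (-(k : ℝ)) * (2 * v ^ (1 / 640 : ℝ)) := by gcongr
        _ = 2 * G * 1 * (v ^ (1 / 640 : ℝ) * v ^ (-(k : ℝ))) := by ring
        _ ≤ 2 * G * X ^ A * (v ^ (1 / 640 : ℝ) * v ^ (-(k : ℝ))) := by gcongr
    have hfin : ‖∫ x in (0 : ℝ)..1, g x‖ ≤ 320 * C1 * N * G * X ^ A * v ^ ((1 / 640 : ℝ) - k) +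
        (4096 * C2 * X ^ A * v ^ ((1 / 640 : ℝ) - k) + 2 * G * X ^ A * v ^ ((1 / 640 : ℝ) - k)) := by
      have h3 := hJ3.trans hE
      have h4 := hmain.trans (add_le_add hB1' hT)
      calc ‖∫ x in (0 : ℝ)..1, g x‖ = ‖((∫ x in (0 : ℝ)..1, g x) - ((1 / (Lam M P : ℝ) : ℝ) : ℂ) *
            ∑ q ∈ QQ M P, ∑ a ∈ (Finset.range q).filter (fun a => a.Coprime q),
              ∫ β in (-(1 / 2) : ℝ)..(1 / 2), g (a / q + β) * (fej H β : ℂ)) + ((1 / (Lam M P : ℝ) : ℝ) : ℂ) *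
            ∑ q ∈ QQ M P, ∑ a ∈ (Finset.range q).filter (fun a => a.Coprime q),
              ∫ β in (-(1 / 2) : ℝ)..(1 / 2), g (a / q + β) * (fej H β : ℂ)‖ := by rw [sub_add_cancel]
        _ ≤ _ := (norm_add_le _ _).trans (add_le_add h3 h4)
    refine hfin.trans ?_
    have h9 : 0 < v ^ ((1 / 640 : ℝ) - k) := by positivity
    have h10 : 0 ≤ G * (N + P0) * X ^ A * v ^ ((1 / 640 : ℝ) - k) := by positivity
    have h11 : (G * (N + P0) + 320 * C1 * N * G + 4096 * C2 + 2 * G) * X ^ A * v ^ ((1 / 640 : ℝ) - k) =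
        G * (N + P0) * X ^ A * v ^ ((1 / 640 : ℝ) - k) + (320 * C1 * N * G * X ^ A * v ^ ((1 / 640 : ℝ) - k) +
        (4096 * C2 * X ^ A * v ^ ((1 / 640 : ℝ) - k) + 2 * G * X ^ A * v ^ ((1 / 640 : ℝ) - k))) := by ring
    rw [h11]
    exact le_add_of_nonneg_left h10

end Pool.Agent.Y809.GL
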